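import Pool.Agent.helper73.SHL.Spec

/-!
# Project shl (MP_a2a22c_al), row TOR
-/

set_option autoImplicit false

namespace Pool.Agent.SHL

open Matrix Module Pool.Agent.PR

theorem TOR_int (A B : Type) [Ring A] [Ring B] (i1 : Algebra ℤ A) (i2 : Algebra ℤ B) (f : A →+* B)
    (hf : Function.Injective f) (x : A) (h : IsIntegral ℤ (f x)) : IsIntegral ℤ x := by
  obtain ⟨p, hp, h0⟩ := h
  refine ⟨p, hp, hf ?_⟩
  rw [map_zero, Polynomial.hom_eval₂, ← h0]
  have h1 : f.comp (algebraMap ℤ A) = algebraMap ℤ B := RingHom.ext_int _ _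
  rw [h1]

theorem TOR_field (A : Type) [Ring A] [Algebra ℚ A] [FiniteDimensional ℚ A] [IsDomain A]
    (hc : ∀ x y : A, x * y = y * x) :
    ∃ (K : Type) (_ : Field K) (_ : NumberField K) (_ : A ≃+* K), finrank ℚ K = finrank ℚ A := by
  letI : CommRing A := { ‹Ring A› with mul_comm := hc }
  letI F : Field A := fieldOfFiniteDimensional ℚ A
  haveI : CharZero A := algebraRat.charZero A
  have e1 : (DivisionRing.toRatAlgebra : Algebra ℚ A) = ‹Algebra ℚ A› := Subsingleton.elim _ _
  haveI hn : @NumberField A F := by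
    refine @NumberField.mk A F this ?_
    rw [e1]
    assumption
  refine ⟨A, F, hn, RingEquiv.refl A, ?_⟩
  rw [e1]

theorem TOR (hHA : HA_stmt) (hHB : HB_stmt) (hDEG : DEG_stmt) (hUNT : UNT_stmt) : TOR_stmt := by
  intro D _ _ _ d hcen hd L _ _ _ _ _ _ Q _ ρ hinj hcomm hirr hint N hN
  haveI : Module.Finite ℚ L := Module.Finite.trans D L
  set E : Subalgebra ℚ (Module.End D L) := Algebra.adjoin ℚ (Set.range ρ) with hE
  have hmem : ∀ g, ρ g ∈ E := fun g => Algebra.subset_adjoin ⟨g, rfl⟩
  have hc1 : ∀ x ∈ E, ∀ g, x * ρ g = ρ g * x := by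
    intro x hx g
    induction hx using Algebra.adjoin_induction with
    | mem x hx =>
      obtain ⟨h, rfl⟩ := hx
      exact hcomm h g
    | algebraMap r => exact Algebra.commutes r (ρ g)
    | add x y _ _ hx hy => rw [add_mul, mul_add, hx, hy]
    | mul x y _ _ hx hy => rw [mul_assoc, hy, ← mul_assoc, hx, mul_assoc]
  have hc2 : ∀ x ∈ E, ∀ y ∈ E, x * y = y * x := by
    intro x hx y hy
    induction hy using Algebra.adjoin_induction with
    | mem y hy =>
      obtain ⟨h, rfl⟩ := hy
      exact hc1 x hx h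
    | algebraMap r => exact (Algebra.commutes r x).symm
    | add y z _ _ hy hz => rw [add_mul, mul_add, hy, hz]
    | mul y z _ _ hy hz => rw [← mul_assoc, hy, mul_assoc, hz, ← mul_assoc]
  have hin : ∀ x ∈ E, x ≠ 0 → Function.Injective x := by
    intro x hx hx0
    rcases hirr (LinearMap.ker x) (fun g w hw => by
      rw [LinearMap.mem_ker] at hw ⊢
      have h1 : x (ρ g w) = ρ g (x w) := by
        have := congrArg (fun f : Module.End D L => f w) (hc1 x hx g)
        exact this
      rw [h1, hw, map_zero]) with h | h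
    · exact LinearMap.ker_eq_bot.1 h
    · exact absurd (LinearMap.ker_eq_top.1 h) hx0
  have hdeg := hDEG D d hcen hd L E hc2 hin
  haveI : FiniteDimensional ℚ (Module.End D L) := by
    let j : Module.End D L →ₗ[ℚ] (L →ₗ[ℚ] L) :=
      { toFun := fun f => f.restrictScalars ℚ
        map_add' := fun _ _ => rfl
        map_smul' := fun _ _ => rfl }
    have hj : Function.Injective j := by
      intro f g h
      ext w
      exact congrArg (fun t : L →ₗ[ℚ] L => t w) h
    exact Module.Finite.of_injective j hj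
  haveI : FiniteDimensional ℚ E := inferInstance
  haveI : Nontrivial E := by
    haveI : Nontrivial (Module.End D L) := inferInstance
    infer_instance
  haveI : NoZeroDivisors E := by
    refine ⟨fun {x y} hxy => ?_⟩
    by_contra hcon
    push Not at hcon
    obtain ⟨hx, hy⟩ := hcon
    apply hy
    apply Subtype.ext
    have hxi := hin x.1 x.2 (fun h => hx (Subtype.ext h))
    have h2 : x.1 * y.1 = 0 := congrArg Subtype.val hxy
    refine LinearMap.ext fun w => ?_
    apply hxi
    have h3 : x.1 (y.1 w) = 0 := congrArg (fun f : Module.End D L => f w) h2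
    rw [h3]
    exact (map_zero x.1).symm
  haveI : IsDomain E := NoZeroDivisors.to_isDomain E
  obtain ⟨K, _, _, φ, hK⟩ := TOR_field E (fun x y => Subtype.ext (hc2 x.1 x.2 y.1 y.2))
  let σ : Q →* E := MonoidHom.codRestrict ρ E hmem
  let ψ : Q →* Kˣ := ((φ : E →* K).comp σ).toHomUnits
  have hψ : ∀ g, ((ψ g : Kˣ) : K) = φ (σ g) := fun g => rfl
  have hψi : Function.Injective ψ := by
    intro g h hgh
    apply hinj
    have h1 : φ (σ g) = φ (σ h) := by rw [← hψ, ← hψ, hgh]
    exact congrArg Subtype.val (φ.injective h1)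
  obtain ⟨a, b, hab, ha, hb⟩ := hHB Q Kˣ ψ N ⊤ hN
  have ha0 : a = 0 := by
    refine (hHA Q).2.2.2.1 a (⊤ ⊓ ψ.ker) (fun x hx => ⟨1, one_pos, ?_⟩) ha
    have h1 : ψ x = 1 := (Subgroup.mem_inf.1 hx).2
    rw [pow_one]
    exact hψi (h1.trans (map_one ψ).symm)
  have hbN : b = N := by omega
  rw [hbN] at hb
  have hu := hUNT K ((⊤ : Subgroup Q).map ψ) (by
    rintro u ⟨g, _, rfl⟩
    rw [hψ]
    have h1 : IsIntegral ℤ (σ g) :=
      TOR_int E (Module.End D L) _ _ (E.val : E →+* Module.End D L) Subtype.val_injective (σ g)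
        (hint g)
    obtain ⟨p, hp, h0⟩ := h1
    refine ⟨p, hp, ?_⟩
    have h2 := congrArg φ h0
    rw [map_zero] at h2
    rw [← h2]
    have h3 := Polynomial.hom_eval₂ p (algebraMap ℤ E) (φ : E →+* K) (σ g)
    have h4 : (φ : E →+* K).comp (algebraMap ℤ E) = algebraMap ℤ K := RingHom.ext_int _ _
    rw [h4] at h3
    exact h3.symm) N hb
  rw [hK] at hu
  exact hu.trans hdeg

end Pool.Agent.SHL
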